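import Pool.Agent.R424.EX.Basic

/-!
Sets with a large image on a set of small doubling in a quotient by a group of bounded exponent
(helper file for `MP_dd2a7c_co.BoundedTorsionExtensions`).
-/

set_option autoImplicit false

namespace Pool.Agent.R424.EX

open Finset
open scoped Pointwise

universe u

/-- Marton's conjecture in the groups of exponent dividing `m`, with the exponent `E`. -/
def TorPFR (m E : ℕ) : Prop :=
  ∀ (G : Type u) [AddCommGroup G] [DecidableEq G], (∀ x : G, m • x = 0) →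
    ∀ (K : ℝ) (A : Finset G), A.Nonempty → ((A + A).card : ℝ) ≤ K * (A.card : ℝ) →
      ∃ (H : AddSubgroup G) (T : Finset G), Finite H ∧ Nat.card H ≤ A.card ∧
        (T.card : ℝ) ≤ (2 * K) ^ E ∧ ∀ a ∈ A, ∃ t ∈ T, a - t ∈ H

theorem TorPFR.sub {m E : ℕ} (hT : TorPFR.{u} m E) {G : Type u} [AddCommGroup G] [DecidableEq G]
    (W : AddSubgroup G) (hW : ∀ w ∈ W, m • w = 0) {S : Finset G} (hS : ∀ s ∈ S, s ∈ W)
    (hne : S.Nonempty) {K : ℝ} (hK : ((S + S).card : ℝ) ≤ K * S.card) :
    ∃ (V : AddSubgroup G) (T : Finset G), V ≤ W ∧ Finite V ∧ Nat.card V ≤ S.card ∧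
      (T.card : ℝ) ≤ (2 * K) ^ E ∧ ∀ s ∈ S, ∃ t ∈ T, s - t ∈ V := by
  classical
  set S' : Finset W := S.preimage (fun w : W => (w : G)) Subtype.val_injective.injOn with hS'
  have hmem : ∀ w : W, w ∈ S' ↔ (w : G) ∈ S := fun w => Finset.mem_preimage
  have himg : S'.image (fun w : W => (w : G)) = S := by
    ext s
    rw [Finset.mem_image]
    constructor
    · rintro ⟨w, hw, rfl⟩
      exact (hmem w).1 hw
    · intro hs
      exact ⟨⟨s, hS s hs⟩, (hmem _).2 hs, rfl⟩
  have hcard : S'.card = S.card := by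
    rw [← himg, Finset.card_image_of_injective _ Subtype.val_injective]
  have hcard2 : (S' + S').card ≤ (S + S).card := by
    refine Finset.card_le_card_of_injOn (fun w : W => (w : G)) ?_ Subtype.val_injective.injOn
    intro w hw
    obtain ⟨a, ha, b, hb, rfl⟩ := Finset.mem_add.1 (Finset.mem_coe.1 hw)
    exact Finset.mem_coe.2 (Finset.add_mem_add ((hmem a).1 ha) ((hmem b).1 hb))
  have hne' : S'.Nonempty := by
    rw [← Finset.card_pos, hcard]
    exact hne.card_pos
  obtain ⟨H, T, hfin, hle, hT1, hcov⟩ := hT W (fun x => Subtype.ext (by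
    simpa using hW x x.2)) K S' hne' (by
      rw [hcard]
      exact (by exact_mod_cast hcard2 : ((S' + S').card : ℝ) ≤ (S + S).card).trans hK)
  have hHcard : Nat.card (H.map W.subtype) = Nat.card H :=
    Nat.card_congr (H.equivMapOfInjective W.subtype W.subtype_injective).toEquiv.symm
  refine ⟨H.map W.subtype, T.image (fun w : W => (w : G)), ?_, ?_, ?_, ?_, ?_⟩
  · rintro _ ⟨w, -, rfl⟩
    exact w.2
  · refine Nat.finite_of_card_ne_zero ?_
    rw [hHcard]
    exact Nat.card_pos.ne'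
  · rw [hHcard, ← hcard]
    exact hle
  · exact (by exact_mod_cast Finset.card_image_le :
      (((T.image (fun w : W => (w : G))).card : ℕ) : ℝ) ≤ T.card).trans hT1
  · intro s hs
    obtain ⟨t, ht, h⟩ := hcov ⟨s, hS s hs⟩ ((hmem _).2 hs)
    exact ⟨t, Finset.mem_image_of_mem _ ht, ⟨_, h, rfl⟩⟩

section

variable {G : Type*} [AddCommGroup G] [DecidableEq G]

/-- the elements of a finite subgroup -/
noncomputable def fs (V : AddSubgroup G) [Finite V] : Finset G :=
  (Set.toFinite (V : Set G)).toFinset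

omit [DecidableEq G] in
theorem mem_fs (V : AddSubgroup G) [Finite V] (x : G) : x ∈ fs V ↔ x ∈ V := by
  rw [fs, Set.Finite.mem_toFinset]
  rfl

omit [DecidableEq G] in
theorem card_fs (V : AddSubgroup G) [Finite V] : (fs V).card = Nat.card V := by
  rw [fs, ← Set.ncard_eq_toFinset_card (V : Set G) (Set.toFinite _)]
  exact (Nat.card_coe_set_eq (V : Set G)).symm

omit [DecidableEq G] in
theorem fs_ne (V : AddSubgroup G) [Finite V] : (fs V).Nonempty := ⟨0, (mem_fs V 0).2 V.zero_mem⟩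

/-- cosets of `V` cover `S` -/
theorem card_le_cosets (V : AddSubgroup G) [Finite V] (S T : Finset G)
    (hcov : ∀ s ∈ S, ∃ t ∈ T, s - t ∈ V) : S.card ≤ T.card * Nat.card V := by
  have h1 : S ⊆ T + fs V := by
    intro s hs
    obtain ⟨t, ht, h⟩ := hcov s hs
    exact Finset.mem_add.2 ⟨t, ht, s - t, (mem_fs V _).2 h, by abel⟩
  rw [← card_fs]
  exact (Finset.card_le_card h1).trans Finset.card_add_le

/-- a subgroup of order at most `|S|`, few cosets of which cover `S`, is covered by few translates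
of `S - S` -/
theorem subcov (V : AddSubgroup G) [Finite V] {S T : Finset G} (hS : S.Nonempty) {τ : ℝ}
    (hT : (T.card : ℝ) ≤ τ) (hcov : ∀ s ∈ S, ∃ t ∈ T, s - t ∈ V) (hc : Nat.card V ≤ S.card) :
    ∃ F : Finset G, (F.card : ℝ) ≤ τ ∧ ∀ v ∈ V, ∃ x ∈ F, ∃ y ∈ S, ∃ z ∈ S, v = x + (y - z) := by
  classical
  -- the popular coset
  obtain ⟨t, -, hbig⟩ : ∃ t ∈ T, S.card ≤ T.card * (S.filter fun s => s - t ∈ V).card := by
    have hTne : T.Nonempty := by
      obtain ⟨s, hs⟩ := hS
      obtain ⟨t, ht, -⟩ := hcov s hs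
      exact ⟨t, ht⟩
    by_contra hcon
    push Not at hcon
    have h2 : S ⊆ T.biUnion (fun t => S.filter fun s => s - t ∈ V) := by
      intro s hs
      obtain ⟨t, ht, h⟩ := hcov s hs
      exact Finset.mem_biUnion.2 ⟨t, ht, Finset.mem_filter.2 ⟨hs, h⟩⟩
    have h3 := (Finset.card_le_card h2).trans Finset.card_biUnion_le
    have h4 : T.card * ∑ t ∈ T, (S.filter fun s => s - t ∈ V).card < T.card * S.card := by
      rw [Finset.mul_sum]
      calc ∑ t ∈ T, T.card * (S.filter fun s => s - t ∈ V).card < ∑ _t ∈ T, S.card :=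
            Finset.sum_lt_sum_of_nonempty hTne hcon
        _ = T.card * S.card := by rw [Finset.sum_const, smul_eq_mul]
    have h5 := Nat.mul_le_mul_left T.card h3
    omega
  set D := S.filter (fun s => s - t ∈ V) with hD
  have hDpos : 0 < D.card := by
    rcases Nat.eq_zero_or_pos D.card with h | h
    · rw [h, mul_zero] at hbig
      have := hS.card_pos
      omega
    · exact h
  have hDne : D.Nonempty := Finset.card_pos.1 hDpos
  have h1 : ((fs V + D).card : ℝ) ≤ τ * D.card := by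
    have h2 : (fs V + D).card ≤ Nat.card V := by
      rw [← card_fs]
      refine Finset.card_le_card_of_injOn (fun x => x - t) ?_ sub_left_injective.injOn
      intro x hx
      obtain ⟨v, hv, d, hd, rfl⟩ := Finset.mem_add.1 (Finset.mem_coe.1 hx)
      rw [Finset.mem_coe, mem_fs]
      have e : v + d - t = v + (d - t) := by abel
      show v + d - t ∈ V
      rw [e]
      exact V.add_mem ((mem_fs V v).1 hv) (Finset.mem_filter.1 hd).2
    calc ((fs V + D).card : ℝ) ≤ ((T.card * D.card : ℕ) : ℝ) := by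
          exact_mod_cast (h2.trans hc).trans hbig
      _ = T.card * D.card := by push_cast; rfl
      _ ≤ τ * D.card := mul_le_mul_of_nonneg_right hT (Nat.cast_nonneg _)
  obtain ⟨F, -, hF, hcovF⟩ := cover hDne h1
  refine ⟨F, hF, fun v hv => ?_⟩
  obtain ⟨x, hx, y, hy, z, hz, e⟩ := hcovF v ((mem_fs V v).2 hv)
  exact ⟨x, hx, y, (Finset.mem_filter.1 hy).1, z, (Finset.mem_filter.1 hz).1, e⟩

end

/-- The number of the elements of exponent `m` in `P - P`. -/
theorem torsion_bound {m : ℕ} {Ξ Δ : Type*} [AddCommGroup Ξ] [DecidableEq Ξ] [AddCommGroup Δ]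
    [DecidableEq Δ] (hΞ : ∀ x : Ξ, m • x = 0 → x = 0) (θ : Ξ →+ Δ) {X : Finset Ξ}
    (hX : X.Nonempty) {M : ℝ} (hM1 : 1 ≤ M) (hXX : ((X + X).card : ℝ) ≤ M * X.card)
    (hsize : (X.card : ℝ) ≤ M ^ 2 * (X.image θ).card) :
    ((((X.image θ) - (X.image θ)).filter fun z => m • z = 0).card : ℝ) ≤
      M ^ (6 * (Nat.log 2 m + 1) + 9) := by
  set P := X.image θ with hP
  set Q := (P - P).filter (fun z => m • z = 0) with hQ
  set μ : Δ →+ Δ := nsmulAddMonoidHom m with hμ
  have hμe : ∀ z, μ z = m • z := fun z => rfl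
  have hX0 : (0 : ℝ) < X.card := by exact_mod_cast hX.card_pos
  -- the images of the differences
  have h1 : (((P - P).image μ).card : ℝ) * Q.card ≤ M ^ 4 * X.card := by
    have h2 := fib μ (P - P) Q 0 (fun q hq => (Finset.mem_filter.1 hq).2)
    have h3 : (P - P) + Q ⊆ (2 • X - 2 • X).image θ := by
      intro z hz
      obtain ⟨a, ha, b, hb, rfl⟩ := Finset.mem_add.1 hz
      obtain ⟨p, hp, p', hp', rfl⟩ := Finset.mem_sub.1 ha
      obtain ⟨r, hr, r', hr', rfl⟩ := Finset.mem_sub.1 (Finset.mem_filter.1 hb).1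
      obtain ⟨x, hx, rfl⟩ := Finset.mem_image.1 hp
      obtain ⟨x', hx', rfl⟩ := Finset.mem_image.1 hp'
      obtain ⟨y, hy, rfl⟩ := Finset.mem_image.1 hr
      obtain ⟨y', hy', rfl⟩ := Finset.mem_image.1 hr'
      refine Finset.mem_image.2 ⟨(x + y) - (x' + y'), mem_pr
        (mem_add_nsmul (i := 1) (j := 1) (mem_one hx) (mem_one hy))
        (mem_add_nsmul (i := 1) (j := 1) (mem_one hx') (mem_one hy')), ?_⟩
      simp only [map_sub, map_add]
      abel
    have h4 : (((P - P) + Q).card : ℝ) ≤ M ^ 4 * X.card := by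
      have h5 : ((P - P) + Q).card ≤ (2 • X - 2 • X).card :=
        (Finset.card_le_card h3).trans Finset.card_image_le
      exact (by exact_mod_cast h5 : (((P - P) + Q).card : ℝ) ≤ (2 • X - 2 • X).card).trans
        (pr hX hXX 2 2)
    have h6 : (((P - P).image μ).card : ℝ) * Q.card ≤ ((P - P) + Q).card := by exact_mod_cast h2
    exact h6.trans h4
  -- covering `X` by `m (X - X)`
  obtain ⟨Y, hY, hcovY⟩ := horner hX hXX m
  have hinj : Function.Injective (fun x : Ξ => m • x) := by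
    intro x y h
    have h2 : m • (x - y) = 0 := by
      rw [smul_sub]
      exact sub_eq_zero.2 h
    exact sub_eq_zero.1 (hΞ _ h2)
  set mX := X.image (fun x : Ξ => m • x) with hmX
  have hmXc : mX.card = X.card := Finset.card_image_of_injective _ hinj
  have hmXne : mX.Nonempty := hX.image _
  have h2 : ((X + mX).card : ℝ) ≤ M ^ (6 * (Nat.log 2 m + 1) + 3) * mX.card := by
    have h3 : X + mX ⊆ Y + (2 • X - 1 • X) := by
      intro z hz
      obtain ⟨a, ha, b, hb, rfl⟩ := Finset.mem_add.1 hz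
      obtain ⟨x, hx, rfl⟩ := Finset.mem_image.1 hb
      obtain ⟨y, hy, b, hb, c, hc, e⟩ := hcovY x hx
      refine Finset.mem_add.2 ⟨y, hy, (a + b) - c, mem_pr
        (mem_add_nsmul (i := 1) (j := 1) (mem_one ha) (mem_one hb)) (mem_one hc), ?_⟩
      simp only [e]
      abel
    have h4 := card_cov hX hXX Y 2 1 h3
    rw [hmXc]
    calc ((X + mX).card : ℝ) ≤ Y.card * (M ^ (2 + 1) * X.card) := h4
      _ ≤ M ^ (6 * (Nat.log 2 m + 1)) * (M ^ (2 + 1) * X.card) :=
        mul_le_mul_of_nonneg_right hY (by positivity)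
      _ = M ^ (6 * (Nat.log 2 m + 1) + 3) * X.card := by
        rw [pow_add M (6 * (Nat.log 2 m + 1)) 3]
        ring
  obtain ⟨F, -, hF, hcovF⟩ := cover hmXne h2
  have h3 : P.card ≤ F.card * ((P - P).image μ).card := by
    have h4 : P ⊆ F.image θ + (P - P).image μ := by
      intro p hp
      obtain ⟨x, hx, rfl⟩ := Finset.mem_image.1 hp
      obtain ⟨x₀, hx₀, y, hy, z, hz, e⟩ := hcovF x hx
      obtain ⟨y₁, hy₁, rfl⟩ := Finset.mem_image.1 hy
      obtain ⟨z₁, hz₁, rfl⟩ := Finset.mem_image.1 hz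
      refine Finset.mem_add.2 ⟨θ x₀, Finset.mem_image_of_mem _ hx₀, m • (θ y₁ - θ z₁),
        Finset.mem_image.2 ⟨θ y₁ - θ z₁, Finset.sub_mem_sub (Finset.mem_image_of_mem _ hy₁)
          (Finset.mem_image_of_mem _ hz₁), rfl⟩, ?_⟩
      rw [e]
      simp only [map_add, map_sub, map_nsmul, smul_sub]
    exact (Finset.card_le_card h4).trans (Finset.card_add_le.trans
      (Nat.mul_le_mul_right _ Finset.card_image_le))
  have hP0 : (0 : ℝ) < P.card := by
    exact_mod_cast (hX.image θ).card_pos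
  have h4 : (Q.card : ℝ) * P.card ≤ M ^ (6 * (Nat.log 2 m + 1) + 9) * P.card := by
    calc (Q.card : ℝ) * P.card ≤ Q.card * (F.card * ((P - P).image μ).card) := by
          refine mul_le_mul_of_nonneg_left ?_ (Nat.cast_nonneg _)
          exact_mod_cast h3
      _ = F.card * (((P - P).image μ).card * Q.card) := by ring
      _ ≤ M ^ (6 * (Nat.log 2 m + 1) + 3) * (M ^ 4 * X.card) :=
        mul_le_mul hF h1 (by positivity) (by positivity)
      _ ≤ M ^ (6 * (Nat.log 2 m + 1) + 3) * (M ^ 4 * (M ^ 2 * P.card)) := by gcongr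
      _ = M ^ (6 * (Nat.log 2 m + 1) + 9) * P.card := by
        rw [pow_add M (6 * (Nat.log 2 m + 1)) 9, pow_add M (6 * (Nat.log 2 m + 1)) 3]
        ring
  exact le_of_mul_le_mul_right h4 hP0

/-- **The core theorem.** -/
theorem core {m E : ℕ} (hT : TorPFR.{u} m E) {G : Type u} {Δ Ξ : Type*} [AddCommGroup G]
    [DecidableEq G] [AddCommGroup Δ] [DecidableEq Δ] [AddCommGroup Ξ] [DecidableEq Ξ]
    (f : G →+ Δ) (hf : ∀ x, f x = 0 → m • x = 0) (hΞ : ∀ x : Ξ, m • x = 0 → x = 0)
    {A : Finset G} (hA : A.Nonempty) {M : ℝ} (hM : ((A + A).card : ℝ) ≤ M * A.card)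
    {X : Finset Ξ} (hX : X.Nonempty) (hXX : ((X + X).card : ℝ) ≤ M * X.card) (ψ : Ξ →+ G)
    (g : G) (hsize : (X.card : ℝ) ≤ M * (A.image f).card)
    (hmeet : ((A.image f).card : ℝ) ≤
      M * ((A.filter fun a => ∃ x ∈ X, f a = f (g + ψ x)).image f).card) :
    ∃ (V : AddSubgroup G) (g' : G), Finite V ∧
      (X.card : ℝ) * Nat.card V ≤ M ^ 4 * A.card ∧
      (A.card : ℝ) ≤ M ^ (12 * (Nat.log 2 m + 1) + 17) * (2 * M ^ 5) ^ (2 * E) *
        ({a : G | a ∈ A ∧ ∃ x ∈ X, ∃ v ∈ V, a = g' + (-(m • ψ x)) + v}.ncard : ℝ) := by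
  classical
  have hM1 := one_le hA hM
  have hA0 : (0 : ℝ) < A.card := by exact_mod_cast hA.card_pos
  have hfA0 : (0 : ℝ) < (A.image f).card := by exact_mod_cast (hA.image f).card_pos
  -- the fibres
  set S := (A - A).filter (fun x => f x = 0) with hS
  have hS0 : (0 : G) ∈ S := by
    obtain ⟨a, ha⟩ := hA
    rw [hS, Finset.mem_filter]
    exact ⟨Finset.mem_sub.2 ⟨a, ha, a, ha, sub_self a⟩, map_zero f⟩
  have hSne : S.Nonempty := ⟨0, hS0⟩
  have hSd : ∀ s ∈ S, ∃ a ∈ A, ∃ b ∈ A, s = a - b := by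
    intro s hs
    obtain ⟨a, ha, b, hb, e⟩ := Finset.mem_sub.1 (Finset.mem_filter.1 hs).1
    exact ⟨a, ha, b, hb, e.symm⟩
  have hSf : ∀ s ∈ S, f s = 0 := fun s hs => (Finset.mem_filter.1 hs).2
  have hfibA : (A.card : ℝ) ≤ (A.image f).card * S.card := by
    have h := card_le_fib f A S (by
      intro a ha b hb e
      rw [hS, Finset.mem_filter]
      exact ⟨Finset.sub_mem_sub ha hb, by rw [map_sub, e, sub_self]⟩)
    exact_mod_cast h
  have hSS : ((S + S).card : ℝ) ≤ M ^ 5 * S.card := by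
    have h1 : (((A.image f).card * (S + S).card : ℕ) : ℝ) ≤ (A + (S + S)).card := by
      exact_mod_cast fib f A (S + S) 0 (by
        intro q hq
        obtain ⟨s, hs, s', hs', rfl⟩ := Finset.mem_add.1 hq
        rw [map_add, hSf s hs, hSf s' hs', add_zero])
    have h2 : A + (S + S) ⊆ {0} + (3 • A - 2 • A) := by
      intro z hz
      obtain ⟨a, ha, q, hq, rfl⟩ := Finset.mem_add.1 hz
      obtain ⟨s, hs, s', hs', rfl⟩ := Finset.mem_add.1 hq
      obtain ⟨b, hb, c, hc, rfl⟩ := hSd s hs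
      obtain ⟨b', hb', c', hc', rfl⟩ := hSd s' hs'
      refine Finset.mem_add.2 ⟨0, Finset.mem_singleton_self _, (a + b + b') - (c + c'), mem_pr
        (mem_add_nsmul (i := 2) (j := 1) (mem_add_nsmul (i := 1) (j := 1) (mem_one ha)
          (mem_one hb)) (mem_one hb'))
        (mem_add_nsmul (i := 1) (j := 1) (mem_one hc) (mem_one hc')), by abel⟩
    have h3 := card_cov hA hM {0} 3 2 h2
    rw [Finset.card_singleton, Nat.cast_one, one_mul] at h3
    have h4 : ((A.image f).card : ℝ) * (S + S).card ≤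
        (A.image f).card * (M ^ 5 * S.card) := by
      calc ((A.image f).card : ℝ) * (S + S).card = (((A.image f).card * (S + S).card : ℕ) : ℝ) := by
            push_cast; rfl
        _ ≤ M ^ (3 + 2) * A.card := h1.trans h3
        _ ≤ M ^ (3 + 2) * ((A.image f).card * S.card) := by gcongr
        _ = (A.image f).card * (M ^ 5 * S.card) := by ring
    exact le_of_mul_le_mul_left h4 hfA0
  -- the subgroup
  obtain ⟨V, T, hVW, hVfin, hVS, hTc, hcovT⟩ := hT.sub f.ker
    (fun w hw => hf w ((AddMonoidHom.mem_ker).1 hw))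
    (fun s hs => (AddMonoidHom.mem_ker).2 (hSf s hs)) hSne hSS
  obtain ⟨τ, hτ⟩ : ∃ τ : ℝ, τ = (2 * M ^ 5) ^ E := ⟨_, rfl⟩
  rw [← hτ] at hTc
  have hτ1 : 1 ≤ τ := by
    rw [hτ]
    exact one_le_pow₀ (by nlinarith [one_le_pow₀ hM1 (n := 5)])
  obtain ⟨F, hF, hcovF⟩ := subcov V hSne hTc hcovT hVS
  have hSV : (S.card : ℝ) ≤ τ * Nat.card V := by
    have h1 : (S.card : ℝ) ≤ ((T.card * Nat.card V : ℕ) : ℝ) := by
      exact_mod_cast card_le_cosets V S T hcovT
    rw [Nat.cast_mul] at h1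
    exact h1.trans (mul_le_mul_of_nonneg_right hTc (Nat.cast_nonneg _))
  -- the large part of `A`
  set A₁ := A.filter (fun a => ∃ x ∈ X, f a = f (g + ψ x)) with hA₁
  have hA₁ne : A₁.Nonempty := by
    rw [← Finset.card_pos]
    by_contra hcon
    have h0 : A₁ = ∅ := Finset.card_eq_zero.1 (by omega)
    rw [h0, Finset.image_empty, Finset.card_empty, Nat.cast_zero, mul_zero] at hmeet
    linarith
  set B₁ := A₁.image f with hB₁
  set θ : Ξ →+ Δ := f.comp ψ with hθ
  set P := X.image θ with hP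
  -- `|X| ≤ M ^ 2 |P|`
  have hBP : B₁.card ≤ P.card := by
    refine Finset.card_le_card_of_injOn (fun b => b - f g) ?_ sub_left_injective.injOn
    intro b hb
    obtain ⟨a, ha, rfl⟩ := Finset.mem_image.1 (Finset.mem_coe.1 hb)
    obtain ⟨x, hx, e⟩ := (Finset.mem_filter.1 ha).2
    rw [Finset.mem_coe, hP, Finset.mem_image]
    refine ⟨x, hx, ?_⟩
    show f (ψ x) = f a - f g
    rw [e, map_add]
    abel
  have hXP : (X.card : ℝ) ≤ M ^ 2 * P.card := by
    have h1 : (B₁.card : ℝ) ≤ P.card := by exact_mod_cast hBP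
    calc (X.card : ℝ) ≤ M * (A.image f).card := hsize
      _ ≤ M * (M * B₁.card) := by gcongr
      _ ≤ M * (M * P.card) := by gcongr
      _ = M ^ 2 * P.card := by ring
  have hq := torsion_bound hΞ θ hX hM1 hXX hXP
  rw [← hP] at hq
  set Q := (P - P).filter (fun z => m • z = 0) with hQ
  -- the dilate
  set mA := A₁.image (fun a : G => m • a) with hmA
  set Z := mA + fs V with hZ
  have hZne : Z.Nonempty := (hA₁ne.image _).add (fs_ne V)
  set π : G →+ G ⧸ V := QuotientAddGroup.mk' V with hπ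
  have hν : ((mA.image π).card : ℝ) * Nat.card V ≤ Z.card := by
    have h1 := fib π mA (fs V) 0 (by
      intro q hq
      rw [hπ]
      exact (QuotientAddGroup.eq_zero_iff q).2 ((mem_fs V q).1 hq))
    rw [card_fs] at h1
    exact_mod_cast h1
  have hBν : (B₁.card : ℝ) ≤ (mA.image π).card * Q.card := by
    have h0 : ∀ z : Δ, ∃ p : G, z ∈ B₁ → p ∈ A₁ ∧ f p = z := by
      intro z
      by_cases hz : z ∈ B₁
      · obtain ⟨p, hp, h⟩ := Finset.mem_image.1 hz
        exact ⟨p, fun _ => ⟨hp, h⟩⟩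
      · exact ⟨0, fun h => absurd h hz⟩
    choose r hr using h0
    have h1 := card_le_fib (fun b => π (m • r b)) B₁ Q (by
      intro b hb b' hb' e
      obtain ⟨hb1, hb2⟩ := hr b hb
      obtain ⟨hb1', hb2'⟩ := hr b' hb'
      obtain ⟨x, hx, ex⟩ := (Finset.mem_filter.1 hb1).2
      obtain ⟨x', hx', ex'⟩ := (Finset.mem_filter.1 hb1').2
      rw [hQ, Finset.mem_filter]
      constructor
      · refine Finset.mem_sub.2 ⟨θ x, Finset.mem_image_of_mem _ hx, θ x',
          Finset.mem_image_of_mem _ hx', ?_⟩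
        rw [← hb2, ← hb2', ex, ex']
        show f (ψ x) - f (ψ x') = _
        simp only [map_add]
        abel
      · have h2 : m • r b - m • r b' ∈ V := by
          rw [← QuotientAddGroup.eq_zero_iff]
          show π (m • r b - m • r b') = 0
          rw [map_sub]
          exact sub_eq_zero.2 e
        have h3 := (AddMonoidHom.mem_ker).1 (hVW h2)
        rw [map_sub, map_nsmul, map_nsmul, hb2, hb2', ← smul_sub] at h3
        exact h3)
    have h2 : (B₁.image (fun b => π (m • r b))).card ≤ (mA.image π).card := by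
      refine Finset.card_le_card ?_
      intro z hz
      obtain ⟨b, hb, rfl⟩ := Finset.mem_image.1 hz
      exact Finset.mem_image_of_mem _ (Finset.mem_image_of_mem _ (hr b hb).1)
    exact_mod_cast h1.trans (Nat.mul_le_mul_right _ h2)
  obtain ⟨ℓ, hℓ⟩ : ∃ ℓ : ℕ, ℓ = Nat.log 2 m + 1 := ⟨_, rfl⟩
  rw [← hℓ] at hq ⊢
  -- `|A|` and `|Z|`
  have hAZ : (A.card : ℝ) ≤ M ^ (6 * ℓ + 10) * τ * Z.card := by
    calc (A.card : ℝ) ≤ (A.image f).card * S.card := hfibA
      _ ≤ (M * B₁.card) * (τ * Nat.card V) :=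
        mul_le_mul hmeet hSV (Nat.cast_nonneg _) (by positivity)
      _ ≤ (M * ((mA.image π).card * Q.card)) * (τ * Nat.card V) := by gcongr
      _ = M * Q.card * τ * ((mA.image π).card * Nat.card V) := by ring
      _ ≤ M * M ^ (6 * ℓ + 9) * τ * Z.card := by
        have hτ0 : 0 ≤ τ := by linarith
        gcongr
      _ = M ^ (6 * ℓ + 10) * τ * Z.card := by
        rw [pow_add M (6 * ℓ) 9, pow_add M (6 * ℓ) 10]
        ring
  -- `|A + Z|`
  obtain ⟨Y, hY, hcovY⟩ := horner hA hM m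
  rw [← hℓ] at hY
  have hAZ2 : ((A + Z).card : ℝ) ≤ M ^ (6 * ℓ + 7) * τ * A.card := by
    have h1 : A + Z ⊆ (Y + F) + (4 • A - 3 • A) := by
      intro z hz
      obtain ⟨a, ha, w, hw, rfl⟩ := Finset.mem_add.1 hz
      obtain ⟨p, hp, v, hv, rfl⟩ := Finset.mem_add.1 hw
      obtain ⟨a', ha', rfl⟩ := Finset.mem_image.1 hp
      obtain ⟨y, hy, b, hb, c, hc, e⟩ := hcovY a' (Finset.mem_filter.1 ha').1
      obtain ⟨x, hx, s, hs, s', hs', e'⟩ := hcovF v ((mem_fs V v).1 hv)
      obtain ⟨b₁, hb₁, c₁, hc₁, rfl⟩ := hSd s hs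
      obtain ⟨b₂, hb₂, c₂, hc₂, rfl⟩ := hSd s' hs'
      refine Finset.mem_add.2 ⟨y + x, Finset.add_mem_add hy hx,
        (a + b + b₁ + c₂) - (c + c₁ + b₂), mem_pr
          (mem_add_nsmul (i := 3) (j := 1) (mem_add_nsmul (i := 2) (j := 1)
            (mem_add_nsmul (i := 1) (j := 1) (mem_one ha) (mem_one hb)) (mem_one hb₁))
            (mem_one hc₂))
          (mem_add_nsmul (i := 2) (j := 1)
            (mem_add_nsmul (i := 1) (j := 1) (mem_one hc) (mem_one hc₁)) (mem_one hb₂)), ?_⟩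
      simp only [e, e']
      abel
    have h2 := card_cov hA hM _ 4 3 h1
    have h3 : ((Y + F).card : ℝ) ≤ M ^ (6 * ℓ) * τ := by
      have h4 : ((Y + F).card : ℝ) ≤ Y.card * F.card := by exact_mod_cast Finset.card_add_le
      exact h4.trans (mul_le_mul hY hF (Nat.cast_nonneg _) (by positivity))
    calc ((A + Z).card : ℝ) ≤ (Y + F).card * (M ^ (4 + 3) * A.card) := h2
      _ ≤ (M ^ (6 * ℓ) * τ) * (M ^ (4 + 3) * A.card) := by gcongr
      _ = M ^ (6 * ℓ + 7) * τ * A.card := by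
        rw [pow_add M (6 * ℓ) 7]
        ring
  obtain ⟨s, hs⟩ := pop hA hZne
  set N := (A.filter fun a => s - a ∈ Z).card with hN
  have hZN : (Z.card : ℝ) ≤ M ^ (6 * ℓ + 7) * τ * N := by
    have h1 : (A.card : ℝ) * Z.card ≤ (A + Z).card * N := by exact_mod_cast hs
    have h2 : (A.card : ℝ) * Z.card ≤ A.card * (M ^ (6 * ℓ + 7) * τ * N) := by
      calc (A.card : ℝ) * Z.card ≤ (A + Z).card * N := h1
        _ ≤ (M ^ (6 * ℓ + 7) * τ * A.card) * N := by gcongr
        _ = A.card * (M ^ (6 * ℓ + 7) * τ * N) := by ring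
    exact le_of_mul_le_mul_left h2 hA0
  refine ⟨V, s - m • g, hVfin, ?_, ?_⟩
  · -- the size
    have h1 : ((A.image f).card : ℝ) * S.card ≤ M ^ 3 * A.card := by
      have h2 := fib f A S 0 hSf
      have h3 : A + S ⊆ {0} + (2 • A - 1 • A) := by
        intro z hz
        obtain ⟨a, ha, s, hs, rfl⟩ := Finset.mem_add.1 hz
        obtain ⟨b, hb, c, hc, rfl⟩ := hSd s hs
        exact Finset.mem_add.2 ⟨0, Finset.mem_singleton_self _, (a + b) - c, mem_pr
          (mem_add_nsmul (i := 1) (j := 1) (mem_one ha) (mem_one hb)) (mem_one hc), by abel⟩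
      have h4 := card_cov hA hM {0} 2 1 h3
      rw [Finset.card_singleton, Nat.cast_one, one_mul] at h4
      exact (by exact_mod_cast h2 : ((A.image f).card : ℝ) * S.card ≤ (A + S).card).trans h4
    have hVS' : (Nat.card V : ℝ) ≤ S.card := by exact_mod_cast hVS
    calc (X.card : ℝ) * Nat.card V ≤ (M * (A.image f).card) * S.card :=
          mul_le_mul hsize hVS' (Nat.cast_nonneg _) (by positivity)
      _ = M * ((A.image f).card * S.card) := by ring
      _ ≤ M * (M ^ 3 * A.card) := by gcongr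
      _ = M ^ 4 * A.card := by ring
  · have h1 : N ≤ {a : G | a ∈ A ∧ ∃ x ∈ X, ∃ v ∈ V, a = s - m • g + -(m • ψ x) + v}.ncard := by
      rw [hN, ← Set.ncard_coe_finset]
      refine Set.ncard_le_ncard ?_ (A.finite_toSet.subset fun a ha => ha.1)
      intro a ha
      rw [Finset.mem_coe, Finset.mem_filter] at ha
      refine ⟨ha.1, ?_⟩
      obtain ⟨p, hp, v, hv, e⟩ := Finset.mem_add.1 ha.2
      obtain ⟨a', ha', rfl⟩ := Finset.mem_image.1 hp
      obtain ⟨x, hx, ex⟩ := (Finset.mem_filter.1 ha').2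
      have h2 : f (a' - (g + ψ x)) = 0 := by rw [map_sub, ex, sub_self]
      have h3 := hf _ h2
      rw [smul_sub, sub_eq_zero, smul_add] at h3
      refine ⟨x, hx, -v, V.neg_mem ((mem_fs V v).1 hv), ?_⟩
      have e2 : a = s - (m • a' + v) := by
        rw [e]
        abel
      rw [e2, h3]
      abel
    have h2 : (N : ℝ) ≤
        ({a : G | a ∈ A ∧ ∃ x ∈ X, ∃ v ∈ V, a = s - m • g + -(m • ψ x) + v}.ncard : ℝ) := by
      exact_mod_cast h1
    have hτ0 : 0 ≤ τ := by linarith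
    calc (A.card : ℝ) ≤ M ^ (6 * ℓ + 10) * τ * Z.card := hAZ
      _ ≤ M ^ (6 * ℓ + 10) * τ * (M ^ (6 * ℓ + 7) * τ * N) := by gcongr
      _ = M ^ (12 * ℓ + 17) * (2 * M ^ 5) ^ (2 * E) * N := by
        rw [hτ]
        have e1 : M ^ (12 * ℓ + 17) = M ^ (6 * ℓ + 10) * M ^ (6 * ℓ + 7) := by
          rw [← pow_add]
          congr 1
          ring
        have e2 : (2 * M ^ 5) ^ (2 * E) = (2 * M ^ 5) ^ E * (2 * M ^ 5) ^ E := by
          rw [← pow_add]
          congr 1
          ring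
        rw [e1, e2]
        ring
      _ ≤ _ := by gcongr

end Pool.Agent.R424.EX
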