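import Pool.Agent.R424.EX.Red
import Pool.Agent.R92.Star.Pfr

/-!
The conclusion of the polynomial Freiman-Ruzsa conjecture for extensions by groups of bounded
exponent (helper file for `MP_dd2a7c_co.BoundedTorsionExtensions`).
-/

set_option autoImplicit false

namespace Pool.Agent.R424.EX

open Finset
open Pool.Agent.Y806.DF Pool.Agent.R92.Star
open scoped Pointwise

universe u v

/-- Marton's conjecture for the exponent `m` (starting library). -/
theorem torPFR (m : ℕ) (hm : 0 < m) : TorPFR.{u} m (41005 * (Nat.log 2 m + 1)) :=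
  fun _ _ _ hG K A hA hK => Pool.Agent.TH404.Tor.upper m hm hG K A hA hK

/-- lifting a homomorphism from `ℤ^d` -/
theorem lift {d : ℕ} {Γ Γ' : Type*} [AddCommGroup Γ] [AddCommGroup Γ'] (f : Γ →+ Γ')
    (hf : Function.Surjective f) (ψ : (Fin d → ℤ) →+ Γ') :
    ∃ φ : (Fin d → ℤ) →+ Γ, ∀ x, f (φ x) = ψ x := by
  choose r hr using hf
  let φ : (Fin d → ℤ) →ₗ[ℤ] Γ := (Pi.basisFun ℤ (Fin d)).constr ℤ
    (fun i => r (ψ (Pi.basisFun ℤ (Fin d) i)))
  have h : f.toIntLinearMap ∘ₗ φ = ψ.toIntLinearMap := by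
    refine (Pi.basisFun ℤ (Fin d)).ext fun i => ?_
    simp only [LinearMap.comp_apply, φ, Module.Basis.constr_basis]
    exact hr _
  exact ⟨φ.toAddMonoidHom, fun x => LinearMap.congr_fun h x⟩

/-- The doubling of the image of a set. -/
theorem image_doubling {Γ Γ' : Type*} [AddCommGroup Γ] [DecidableEq Γ] [AddCommGroup Γ']
    [DecidableEq Γ'] (f : Γ →+ Γ') {A : Finset Γ} (hA : A.Nonempty) {K : ℝ}
    (hK : ((A + A).card : ℝ) ≤ K * A.card) :
    ((A.image f + A.image f).card : ℝ) ≤ K ^ 3 * (A.image f).card := by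
  classical
  -- the largest fibre
  obtain ⟨b, hb, hmax⟩ := (A.image f).exists_max_image
    (fun b => (A.filter fun a => f a = b).card) (hA.image f)
  set Q := A.filter (fun a => f a = b) with hQ
  have hQpos : (0 : ℝ) < Q.card := by
    obtain ⟨a, ha, e⟩ := Finset.mem_image.1 hb
    have h : 0 < Q.card := Finset.card_pos.2 ⟨a, Finset.mem_filter.2 ⟨ha, e⟩⟩
    exact_mod_cast h
  have h1 : (A.card : ℝ) ≤ Q.card * (A.image f).card := by
    exact_mod_cast Finset.card_le_mul_card_image A Q.card fun z hz => hmax z hz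
  have h2 := fib f (A + A) Q b (fun q hq => (Finset.mem_filter.1 hq).2)
  rw [Finset.image_add f] at h2
  have h3 : A + A + Q ⊆ {0} + (3 • A - 0 • A) := by
    intro z hz
    obtain ⟨p, hp, c, hc, rfl⟩ := Finset.mem_add.1 hz
    obtain ⟨a, ha, b, hb, rfl⟩ := Finset.mem_add.1 hp
    refine Finset.mem_add.2 ⟨0, Finset.mem_singleton_self _, (a + b + c) - 0, mem_pr
      (mem_add_nsmul (i := 2) (j := 1) (mem_add_nsmul (i := 1) (j := 1) (mem_one ha)
        (mem_one hb)) (mem_one (Finset.mem_filter.1 hc).1)) ?_, by abel⟩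
    rw [zero_nsmul]
    exact Finset.mem_zero.2 rfl
  have h4 := card_cov hA hK {0} 3 0 h3
  rw [Finset.card_singleton, Nat.cast_one, one_mul] at h4
  have h5 : ((A.image f + A.image f).card : ℝ) * Q.card ≤ (K ^ 3 * (A.image f).card) * Q.card := by
    calc ((A.image f + A.image f).card : ℝ) * Q.card ≤ (A + A + Q).card := by exact_mod_cast h2
      _ ≤ K ^ (3 + 0) * A.card := h4
      _ ≤ K ^ (3 + 0) * (Q.card * (A.image f).card) := by
        have hK0 : 0 ≤ K := by linarith [one_le hA hK]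
        gcongr
      _ = (K ^ 3 * (A.image f).card) * Q.card := by ring
  exact le_of_mul_le_mul_right h5 hQpos

/-- **The theorem in terms of `Data`.** -/
theorem ext_data (m : ℕ) (hm : 0 < m) : ∃ c : ℕ, ∀ (Γ : Type u) (Γ' : Type v) [AddCommGroup Γ]
    [DecidableEq Γ] [AddCommGroup Γ'] [DecidableEq Γ'] (f : Γ →+ Γ'), Function.Surjective f →
    (∀ x, f x = 0 → m • x = 0) → ∀ (A : Finset Γ) (M : ℝ), A.Nonempty →
    ((A + A).card : ℝ) ≤ M * A.card → ∀ (d : ℕ) (X : Finset (Fin d → ℤ))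
    (ψ : (Fin d → ℤ) →+ Γ') (H : AddSubgroup Γ') (g : Γ'), Data M (A.image f) X ψ H g →
    ∃ (ψ' : (Fin d → ℤ) →+ Γ) (V : AddSubgroup Γ) (g' : Γ), Data (2 ^ c * M ^ c) A X ψ' V g' := by
  obtain ⟨ℓ, hℓ⟩ : ∃ ℓ : ℕ, ℓ = Nat.log 2 m + 1 := ⟨_, rfl⟩
  obtain ⟨E, hE⟩ : ∃ E : ℕ, E = 41005 * (Nat.log 2 m + 1) := ⟨_, rfl⟩
  refine ⟨(12 * ℓ + 8) * (12 * ℓ + 18) + (12 * ℓ + 8) * 5 * (2 * E) + 2 * E, ?_⟩
  intro Γ Γ' _ _ _ _ f hf hker A M hA hM d X ψ H g hD
  have hM1 := one_le hA hM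
  have hM0 : 0 < M := by linarith
  obtain ⟨φ, hφ⟩ := lift f hf ψ
  obtain ⟨g₀, rfl⟩ := hf g
  have hHfin := hD.fin
  have hT := torPFR.{u} m hm
  rw [← hE] at hT
  obtain ⟨V, g', hVfin, hsize, hmeet⟩ := reduction hT f hker (Ξ := Fin d → ℤ)
    (by
      intro x hx
      funext i
      have h := congrFun hx i
      simp only [Pi.smul_apply, nsmul_eq_mul, Pi.zero_apply] at h
      rcases mul_eq_zero.1 h with h | h
      · exact absurd h (by exact_mod_cast hm.ne')
      · exact h)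
    hA hM hD.ne hD.doubling φ g₀ H (fun h _ => hf h) hD.size (by
      refine hD.meet.trans_eq ?_
      simp only [hφ])
  rw [← hℓ] at hsize hmeet
  obtain ⟨c, hc⟩ : ∃ c : ℕ,
    c = (12 * ℓ + 8) * (12 * ℓ + 18) + (12 * ℓ + 8) * 5 * (2 * E) + 2 * E := ⟨_, rfl⟩
  rw [← hc]
  have hle : (M ^ (12 * ℓ + 8)) ^ (12 * ℓ + 18) * (2 * (M ^ (12 * ℓ + 8)) ^ 5) ^ (2 * E) ≤
      2 ^ c * M ^ c := by
    calc (M ^ (12 * ℓ + 8)) ^ (12 * ℓ + 18) * (2 * (M ^ (12 * ℓ + 8)) ^ 5) ^ (2 * E)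
        = 2 ^ (2 * E) * M ^ ((12 * ℓ + 8) * (12 * ℓ + 18) + (12 * ℓ + 8) * 5 * (2 * E)) := by
          rw [mul_pow, ← pow_mul, ← pow_mul, ← pow_mul, pow_add]
          ring
      _ ≤ 2 ^ c * M ^ c := by
          refine mul_le_mul (pow_le_pow_right₀ (by norm_num) (by omega))
            (pow_le_pow_right₀ hM1 (by omega)) (by positivity) (by positivity)
  have hMc : M ≤ 2 ^ c * M ^ c := by
    have hc1 : 1 ≤ c := by
      rw [hc]
      have : 0 < (12 * ℓ + 8) * (12 * ℓ + 18) := by positivity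
      omega
    calc M = 1 * M ^ 1 := by rw [pow_one, one_mul]
      _ ≤ 2 ^ c * M ^ c := mul_le_mul (one_le_pow₀ (by norm_num)) (pow_le_pow_right₀ hM1 hc1)
          (by positivity) (by positivity)
  refine ⟨-(m • φ), V, g', ⟨hD.ne, hVfin, ?_, ?_, ?_, ?_⟩⟩
  · exact hD.doubling.trans (mul_le_mul_of_nonneg_right hMc (Nat.cast_nonneg _))
  · exact hD.dense.trans (mul_le_mul_of_nonneg_right hMc (Nat.cast_nonneg _))
  · exact hsize.trans (mul_le_mul_of_nonneg_right hle (Nat.cast_nonneg _))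
  · exact hmeet.trans (mul_le_mul_of_nonneg_right hle (Nat.cast_nonneg _))

/-- from `Data` with `a K ^ b` to `Concl` -/
theorem concl_of (a b : ℕ) : ∃ C' : ℝ, ∀ (Γ : Type u) [AddCommGroup Γ] [DecidableEq Γ] (K : ℝ)
    (A : Finset Γ), A.Nonempty → ((A + A).card : ℝ) ≤ K * A.card → ∀ (d : ℕ)
    (X : Finset (Fin d → ℤ)) (ψ : (Fin d → ℤ) →+ Γ) (H : AddSubgroup Γ) (g : Γ),
    Data ((a : ℝ) * K ^ b) A X ψ H g → Concl C' K A := by
  refine ⟨((5000 * (a + b + 1) ^ 5000 : ℕ) : ℝ), ?_⟩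
  intro Γ _ _ K A hA hK d X ψ H g hD
  have hK1 := one_le_K hA hK
  have hn : 1 ≤ a + b + 1 := by omega
  refine concl_of_data hn hA hK (hD.mono ?_)
  refine mul_le_mul ?_ (pow_le_pow_right₀ hK1 (by omega)) (by positivity) (Nat.cast_nonneg _)
  exact_mod_cast (by omega : a ≤ a + b + 1)

/-- **Extensions by groups of bounded exponent.** -/
theorem ext (C : ℝ) (m : ℕ) (hm : 0 < m) : ∃ C' : ℝ, ∀ (Γ : Type u) (Γ' : Type v)
    [AddCommGroup Γ] [DecidableEq Γ] [AddCommGroup Γ'] [DecidableEq Γ'] (f : Γ →+ Γ'),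
    Function.Surjective f → (∀ x, f x = 0 → m • x = 0) → ∀ (K : ℝ) (A : Finset Γ),
    A.Nonempty → ((A + A).card : ℝ) ≤ K * A.card → Concl C (K ^ 3) (A.image f) →
    Concl C' K A := by
  obtain ⟨n, hn1, hn, hCK⟩ := nat_const C
  obtain ⟨c, hc⟩ := ext_data.{u, v} m hm
  obtain ⟨C', hC'⟩ := concl_of.{u} (2 ^ c * (4 ^ n) ^ c) (3 * 4 ^ n * c)
  refine ⟨C', ?_⟩
  intro Γ Γ' _ _ _ _ f hf hker K A hA hK h
  have hK1 := one_le_K hA hK
  have hK0 : 0 < K := by linarith
  obtain ⟨d, X, ψ, H, g, hD⟩ := data_of_concl hn1 hn hCK (hA.image f)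
    (image_doubling f hA hK) h
  have hle : K ≤ ((4 ^ n : ℕ) : ℝ) * (K ^ 3) ^ (4 ^ n : ℕ) := by
    have e1 : (1 : ℝ) ≤ ((4 ^ n : ℕ) : ℝ) := by exact_mod_cast Nat.one_le_pow _ _ (by norm_num)
    have e2 : K ≤ (K ^ 3) ^ (4 ^ n : ℕ) := by
      rw [← pow_mul]
      exact le_self_pow₀ hK1 (by positivity)
    calc K = 1 * K := (one_mul K).symm
      _ ≤ _ := mul_le_mul e1 e2 hK0.le (Nat.cast_nonneg _)
  obtain ⟨ψ', V, g', hD'⟩ := hc Γ Γ' f hf hker A _ hA
    (hK.trans (mul_le_mul_of_nonneg_right hle (Nat.cast_nonneg _))) d X ψ H g hD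
  refine hC' Γ K A hA hK d X ψ' V g' (hD'.mono (le_of_eq ?_))
  push_cast
  rw [mul_pow, ← pow_mul K 3, ← pow_mul K (3 * 4 ^ n)]
  ring

/-- Sets whose image in `ℤ^d` is dense in its convex hull. -/
theorem ext_hull (m : ℕ) (hm : 0 < m) : ∃ C' : ℝ, ∀ (Γ : Type u) [AddCommGroup Γ]
    [DecidableEq Γ] (d : ℕ) (f : Γ →+ (Fin d → ℤ)),
    Function.Surjective f → (∀ x, f x = 0 → m • x = 0) → ∀ (K : ℝ) (A : Finset Γ),
    A.Nonempty → ((A + A).card : ℝ) ≤ K * A.card →
    ((hull (A.image f)).ncard : ℝ) ≤ K * (A.image f).card → Concl C' K A := by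
  obtain ⟨c, hc⟩ := ext_data.{u, 0} m hm
  obtain ⟨C', hC'⟩ := concl_of.{u} (2 ^ c) (3 * c)
  refine ⟨C', ?_⟩
  intro Γ _ _ d f hf hker K A hA hK hhull
  have hK1 := one_le_K hA hK
  have hK0 : 0 < K := by linarith
  have hKK : K ≤ K ^ 3 := le_self_pow₀ hK1 (by norm_num)
  have hK31 : (1 : ℝ) ≤ K ^ 3 := one_le_pow₀ hK1
  have hD : Data (K ^ 3) (A.image f) (A.image f) (AddMonoidHom.id _) ⊥ 0 := by
    refine ⟨hA.image f, inferInstance, image_doubling f hA hK,
      hhull.trans (mul_le_mul_of_nonneg_right hKK (Nat.cast_nonneg _)), ?_, ?_⟩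
    · rw [AddSubgroup.card_bot, Nat.cast_one, mul_one]
      exact le_mul_of_one_le_left (Nat.cast_nonneg _) hK31
    · have h1 : {a : Fin d → ℤ | a ∈ A.image f ∧ ∃ x ∈ A.image f, ∃ h ∈ (⊥ : AddSubgroup
          (Fin d → ℤ)), a = 0 + (AddMonoidHom.id (Fin d → ℤ)) x + h} =
          ((A.image f : Finset (Fin d → ℤ)) : Set (Fin d → ℤ)) := by
        ext a
        constructor
        · exact fun h => h.1
        · intro h
          exact ⟨h, a, h, 0, AddSubgroup.zero_mem _, by simp⟩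
      rw [h1, Set.ncard_coe_finset]
      exact le_mul_of_one_le_left (Nat.cast_nonneg _) hK31
  obtain ⟨ψ', V, g', hD'⟩ := hc Γ (Fin d → ℤ) f hf hker A _ hA
    (hK.trans (mul_le_mul_of_nonneg_right hKK (Nat.cast_nonneg _))) d _ _ _ _ hD
  refine hC' Γ K A hA hK d _ ψ' V g' (hD'.mono (le_of_eq ?_))
  push_cast
  rw [← pow_mul]

/-- injective homomorphisms -/
theorem concl_map {Γ Γ' : Type*} [AddCommGroup Γ] [AddCommGroup Γ'] [DecidableEq Γ']
    (i : Γ →+ Γ') (hi : Function.Injective i) {C K : ℝ} {A : Finset Γ} (h : Concl C K A) :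
    Concl C K (A.image i) := by
  classical
  obtain ⟨d, B, ψ, H, T, hd, hB, hH, hvol, hT, hcov⟩ := h
  have hcard : Nat.card (H.map i) = Nat.card H :=
    Nat.card_congr (H.equivMapOfInjective i hi).toEquiv.symm
  refine ⟨d, B, i.comp ψ, H.map i, T.image i, hd, hB, ?_, ?_, ?_, ?_⟩
  · refine Nat.finite_of_card_ne_zero ?_
    rw [hcard]
    exact Nat.card_pos.ne'
  · rw [hcard, Finset.card_image_of_injective _ hi]
    exact hvol
  · exact (by exact_mod_cast Finset.card_image_le :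
      (((T.image i).card : ℕ) : ℝ) ≤ T.card).trans hT
  · intro a ha
    obtain ⟨a', ha', rfl⟩ := Finset.mem_image.1 ha
    obtain ⟨t, ht, x, hx, y, hy, e⟩ := hcov a' ha'
    exact ⟨i t, Finset.mem_image_of_mem _ ht, x, hx, i y, ⟨y, hy, rfl⟩, by
      rw [e, map_add, map_add]
      rfl⟩

/-- a set of integer points which contains with every point the box between it and the origin -/
def StarZ {d : ℕ} (B : Finset (Fin d → ℤ)) : Prop :=
  ∀ x ∈ B, ∀ y : Fin d → ℤ, (∀ i, Btw (y i) (x i)) → y ∈ B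

/-- star-shaped sets of integer points -/
theorem star_concl : ∃ C : ℝ, ∀ (d : ℕ) (K : ℝ) (B : Finset (Fin d → ℤ)), B.Nonempty →
    StarZ B → ((B + B).card : ℝ) ≤ K * B.card → Concl C K B := by
  classical
  obtain ⟨C₁, hC₁⟩ := torsion_concl.{0} 1 one_pos
  obtain ⟨C₂, hC₂⟩ := transfer.{0} C₁
  refine ⟨C₂, ?_⟩
  intro d K B hB hS hK
  let i : (Fin d → ℤ) →+ (Fin d → ℤ) × PUnit.{1} := AddMonoidHom.inl _ _
  let p : (Fin d → ℤ) × PUnit.{1} →+ (Fin d → ℤ) := AddMonoidHom.fst _ _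
  have hi : Function.Injective i := fun x y h => congrArg Prod.fst h
  have hp : Function.Injective p := fun x y h => Prod.ext h rfl
  have hpi : (B.image i).image p = B := by
    rw [Finset.image_image]
    exact Finset.image_id
  have h1 : Concl C₂ K (B.image i) := by
    refine hC₂ PUnit.{1} (fun K S hS hK => hC₁ PUnit.{1} (fun g => rfl) K S hS hK) d K _
      (hB.image i) ?_ ?_
    · intro x g hx y hy
      obtain ⟨x', hx', e⟩ := Finset.mem_image.1 hx
      have e1 : x' = x := congrArg Prod.fst e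
      subst e1
      exact Finset.mem_image.2 ⟨y, hS x' hx' y hy, rfl⟩
    · rw [← Finset.image_add i, Finset.card_image_of_injective _ hi,
        Finset.card_image_of_injective _ hi]
      exact hK
  rw [← hpi]
  exact concl_map p hp h1

/-- Sets whose image in `ℤ^d` is star-shaped. -/
theorem ext_star (m : ℕ) (hm : 0 < m) : ∃ C' : ℝ, ∀ (Γ : Type u) [AddCommGroup Γ]
    [DecidableEq Γ] (d : ℕ) (f : Γ →+ (Fin d → ℤ)),
    Function.Surjective f → (∀ x, f x = 0 → m • x = 0) → ∀ (K : ℝ) (A : Finset Γ),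
    A.Nonempty → ((A + A).card : ℝ) ≤ K * A.card → StarZ (A.image f) → Concl C' K A := by
  obtain ⟨C₁, hC₁⟩ := star_concl
  obtain ⟨C', hC'⟩ := ext.{u, 0} C₁ m hm
  exact ⟨C', fun Γ _ _ d f hf hker K A hA hK hS => hC' Γ _ f hf hker K A hA hK
    (hC₁ d _ _ (hA.image f) hS (image_doubling f hA hK))⟩

/-- A finitely generated group whose torsion is killed by `m` maps onto some `ℤ^d` with kernel
killed by `m`. -/
theorem exists_hom (G : Type u) [AddCommGroup G] [Module.Finite ℤ G] (m : ℕ)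
    (hG : ∀ x : G, (∃ k : ℕ, 0 < k ∧ k • x = 0) → m • x = 0) :
    ∃ (d : ℕ) (f : G →+ (Fin d → ℤ)), Function.Surjective f ∧ ∀ x, f x = 0 → m • x = 0 := by
  let Q := G ⧸ Submodule.torsion ℤ G
  have : Module.Free ℤ Q := inferInstance
  let b := Module.finBasis ℤ Q
  let f : G →ₗ[ℤ] (Fin (Module.finrank ℤ Q) → ℤ) :=
    b.equivFun.toLinearMap ∘ₗ (Submodule.torsion ℤ G).mkQ
  refine ⟨Module.finrank ℤ Q, f.toAddMonoidHom, ?_, ?_⟩
  · intro y
    obtain ⟨q, hq⟩ := b.equivFun.surjective y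
    obtain ⟨x, hx⟩ := Submodule.mkQ_surjective _ q
    exact ⟨x, by
      show b.equivFun ((Submodule.torsion ℤ G).mkQ x) = y
      rw [hx, hq]⟩
  · intro x hx
    have h1 : b.equivFun ((Submodule.torsion ℤ G).mkQ x) = 0 := hx
    rw [LinearEquiv.map_eq_zero_iff, Submodule.mkQ_apply, Submodule.Quotient.mk_eq_zero] at h1
    obtain ⟨a, ha⟩ := (Submodule.mem_torsion_iff x).1 h1
    have ha0 : (a : ℤ) ≠ 0 := nonZeroDivisors.coe_ne_zero a
    refine hG x ⟨(a : ℤ).natAbs, Int.natAbs_pos.2 ha0, ?_⟩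
    have h2 : (a : ℤ) • x = 0 := ha
    rw [← natCast_zsmul]
    rcases Int.natAbs_eq (a : ℤ) with h | h
    · rw [← h]
      exact h2
    · have h3 : (((a : ℤ).natAbs : ℕ) : ℤ) = -(a : ℤ) := by omega
      rw [h3, neg_smul, h2, neg_zero]

/-- Q1 for the sets of integer points implies Q1 for groups with bounded torsion. -/
theorem ext_free (C : ℝ) (m : ℕ) (hm : 0 < m) : ∃ C' : ℝ,
    (∀ (d : ℕ) (K : ℝ) (B : Finset (Fin d → ℤ)), B.Nonempty →
      ((B + B).card : ℝ) ≤ K * B.card → Concl C K B) →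
    ∀ (Γ : Type u) [AddCommGroup Γ] [DecidableEq Γ],
      (∀ x : Γ, (∃ k : ℕ, 0 < k ∧ k • x = 0) → m • x = 0) → ∀ (K : ℝ) (A : Finset Γ),
        A.Nonempty → ((A + A).card : ℝ) ≤ K * A.card → Concl C' K A := by
  classical
  obtain ⟨C', hC'⟩ := ext.{u, 0} C m hm
  refine ⟨C', ?_⟩
  intro h Γ _ _ htor K A hA hK
  set G := AddSubgroup.closure (A : Set Γ) with hG
  have hfg : Module.Finite ℤ G := by
    rw [Module.Finite.iff_addGroup_fg]
    exact (AddGroup.fg_iff_addSubgroup_fg _).2 ⟨A, rfl⟩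
  set A' : Finset G := A.preimage (fun w : G => (w : Γ)) Subtype.val_injective.injOn with hA'
  have hmem : ∀ w : G, w ∈ A' ↔ (w : Γ) ∈ A := fun w => Finset.mem_preimage
  have himg : A'.image G.subtype = A := by
    ext s
    rw [Finset.mem_image]
    constructor
    · rintro ⟨w, hw, rfl⟩
      exact (hmem w).1 hw
    · intro hs
      exact ⟨⟨s, AddSubgroup.subset_closure (Finset.mem_coe.2 hs)⟩, (hmem _).2 hs, rfl⟩
  have hne : A'.Nonempty := by
    rw [← himg] at hA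
    exact Finset.image_nonempty.1 hA
  have hK' : ((A' + A').card : ℝ) ≤ K * A'.card := by
    have h1 : (A' + A').card = (A + A).card := by
      rw [← himg, ← Finset.image_add G.subtype,
        Finset.card_image_of_injective _ G.subtype_injective]
    have h2 : A'.card = A.card := by
      rw [← himg, Finset.card_image_of_injective _ G.subtype_injective]
    rw [h1, h2]
    exact hK
  obtain ⟨d, f, hf, hker⟩ := exists_hom G m (by
    rintro x ⟨k, hk, hx⟩
    have h1 := htor (x : Γ) ⟨k, hk, by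
      have := congrArg (fun w : G => (w : Γ)) hx
      simpa using this⟩
    exact Subtype.ext (by simpa using h1))
  have h1 := hC' G _ f hf hker K A' hne hK'
    (h d _ _ (hne.image f) (image_doubling f hne hK'))
  rw [← himg]
  exact concl_map G.subtype G.subtype_injective h1

end Pool.Agent.R424.EX
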